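import Mathlib
import Pool.Agent.R939.EI.Tw1

/-!
# Covers `t ↦ tᵐ`: irreducibility
-/

set_option autoImplicit false
set_option linter.all false

namespace Pool.Agent.R939.KM

open Polynomial Pool.Agent.R939.EI Pool.Agent.TH115.GD

section irr

variable {k : Type} [Field k]

/-- `π(tᵐ)` is irreducible if the roots of `π` are not `ℓ`-th powers for the primes `ℓ` dividing
`m`. -/
theorem irr_pow {π : k[X]} (hπ : Irreducible π) {m : ℕ} (hm : Odd m)
    (h : ∀ ℓ : ℕ, ℓ.Prime → ℓ ∣ m → ∀ y : AdjoinRoot π, y ^ ℓ ≠ AdjoinRoot.root π) :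
    Irreducible (π.comp (X ^ m)) := by
  have hl : π.leadingCoeff ≠ 0 := leadingCoeff_ne_zero.2 hπ.ne_zero
  set f := C π.leadingCoeff⁻¹ * π with hf
  have hu : IsUnit (C π.leadingCoeff⁻¹ : k[X]) :=
    isUnit_C.2 (isUnit_iff_ne_zero.2 (inv_ne_zero hl))
  have hfm : f.Monic := by
    rw [hf, Monic, leadingCoeff_mul, leadingCoeff_C, inv_mul_cancel₀ hl]
  have hfi : Irreducible f := (irreducible_isUnit_mul hu).2 hπ
  have key : Irreducible (f.comp (X ^ m)) := by
    refine irreducible_comp hfm (monic_X_pow m) hfi ?_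
    intro E _ _ x hx
    rw [Polynomial.map_pow, map_X]
    refine X_pow_sub_C_irreducible_of_odd hm ?_
    intro ℓ hℓ hℓm b hb
    have hint : IsIntegral k x := by
      by_contra hcon
      have h0 := minpoly.eq_zero hcon
      rw [hx] at h0
      exact hfi.ne_zero h0
    -- the map to `AdjoinRoot π`
    let φ : AdjoinRoot (minpoly k x) →ₐ[k] AdjoinRoot π :=
      AdjoinRoot.liftAlgHom (minpoly k x) (Algebra.ofId k (AdjoinRoot π)) (AdjoinRoot.root π) (by
        rw [hx]
        show eval₂ (algebraMap k (AdjoinRoot π)) (AdjoinRoot.root π) f = 0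
        rw [hf, eval₂_mul, AdjoinRoot.algebraMap_eq, AdjoinRoot.eval₂_root, mul_zero])
    have h1 : φ (AdjoinRoot.root (minpoly k x)) = AdjoinRoot.root π := by
      show AdjoinRoot.liftAlgHom _ _ _ _ (AdjoinRoot.root (minpoly k x)) = _
      simp
    let e := (IntermediateField.adjoinRootEquivAdjoin k hint).symm
    have h2 : e (IntermediateField.AdjoinSimple.gen k x) = AdjoinRoot.root (minpoly k x) := by
      rw [AlgEquiv.symm_apply_eq]
      exact (IntermediateField.adjoinRootEquivAdjoin_apply_root k hint).symm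
    apply h ℓ hℓ hℓm (φ (e b))
    rw [← map_pow, ← map_pow, hb, h2, h1]
  have h3 : f.comp (X ^ m) = C π.leadingCoeff⁻¹ * π.comp (X ^ m) := by
    rw [hf, mul_comp, C_comp]
  rw [h3] at key
  exact (irreducible_isUnit_mul hu).1 key

end irr

section main

variable {k k' K F : Type} [Field k] [Field k'] [Algebra k k'] [Field K] [Algebra k[X] K]
    [Field F] [Algebra k'[X] F] [IsFractionRing k'[X] F] [Algebra K F]

/-- No root of `f` is an `ℓ`-th power in the field generated by it. -/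
def NoPowerRoot {k : Type} [Field k] (f : k[X]) (ℓ : ℕ) : Prop :=
  ∀ π : k[X], Irreducible π → π ∣ f → ∀ y : AdjoinRoot π, y ^ ℓ ≠ AdjoinRoot.root π

/-- **Kummer covers.** -/
theorem kummer [PerfectField k] (hT : IsTower k k' K F) (h2 : (2 : k) ≠ 0) {a b D : k[X]}
    (hNb : NotNorm b) (hNd : NotNorm (a ^ 2 - 4 * b)) (hO : OnlyTrivial a b)
    (hO' : OnlyTrivial (-2 * a) (a ^ 2 - 4 * b)) (hD : InertIn a b D) {c : k} (hc : c ≠ 0) {m : ℕ}
    (hm : Odd m) (hp : ∀ ℓ : ℕ, ℓ.Prime → ℓ ∣ m → NoPowerRoot (b * (a ^ 2 - 4 * b) * D) ℓ) :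
    TateAtTwo (F := F) k' (crvT (algebraMap k[X] K ((C c * (a * D)).comp (X ^ m)))
      (algebraMap k[X] K ((C (c ^ 2) * (b * D ^ 2)).comp (X ^ m)))) := by
  have hb0 : b ≠ 0 := by
    rintro rfl
    exact (hNb 0 1 0 0 (by simp)).1 rfl
  have hd0 : a ^ 2 - 4 * b ≠ 0 := by
    intro h0
    exact (hNd 0 1 0 0 (by rw [h0]; simp)).1 rfl
  refine twist_main hT h2 hb0 hd0 hNb hNd hO hO' hD hc ?_ ?_
  · rw [natDegree_X_pow]
    exact hm
  · intro π hπ hdv
    have h3 := irr_pow hπ hm fun ℓ hℓ hℓm => hp ℓ hℓ hℓm π hπ hdv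
    exact ⟨h3, PerfectField.separable_of_irreducible h3⟩

end main

end Pool.Agent.R939.KM
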