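import Mathlib
import Pool.Agent.R939.FF.Prm
import Pool.Agent.R939.KM.Km
import Pool.Agent.R939.EI.Odd4

/-!
# Covers `t ↦ t ^ (ℓ ^ j)`: finite fields
-/

set_option autoImplicit false
set_option linter.all false

namespace Pool.Agent.R939.KM

open Polynomial Finset Pool.Agent.R939.EI Pool.Agent.R939.FF Pool.Agent.TH115.GD

section sq

variable {k : Type} [Field k]

theorem sq_of_splits_zero {A : k[X]} {ε : k} (hε : ε ≠ 0) (hA : A ≠ 0) (h : Splits 0 ε A) :
    ∃ (c : k) (g : k[X]), A = C c * g ^ 2 := by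
  obtain ⟨x, y, z, hz, e⟩ := h
  obtain ⟨r, S, T, hr, hS, hS', hT, hAe⟩ := sq_dec _ A rfl hA
  have h1 : S * (T * z) ^ 2 = C (ε * r)⁻¹ * x ^ 2 := by
    have h2 : C (ε * r) * (S * (T * z) ^ 2) = x ^ 2 := by
      rw [hAe] at e
      rw [C_mul]
      linear_combination e
    rw [← h2, ← mul_assoc, ← C_mul, inv_mul_cancel₀ (mul_ne_zero hε hr), C_1, one_mul]
  have hu := unit_of_sq hS' hS.ne_zero (inv_ne_zero (mul_ne_zero hε hr)) _ x (T * z)
    (mul_ne_zero hT hz) rfl h1
  have hS1 : S = 1 := hS.eq_one_of_isUnit hu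
  exact ⟨r, T, by rw [hAe, hS1, mul_one]⟩

theorem comp_ne_sq {f h : k[X]} (hodd : Odd h.natDegree)
    (hf : ∀ (c : k) (g : k[X]), f ≠ C c * g ^ 2) (c : k) (g : k[X]) :
    f.comp h ≠ C c * g ^ 2 := by
  intro e
  have hf0 : f ≠ 0 := by
    rintro rfl
    exact hf 0 0 (by simp)
  have hfh : f.comp h ≠ 0 := by
    intro h0
    rcases comp_eq_zero_iff.1 h0 with h1 | ⟨-, h1⟩
    · exact hf0 h1
    · rw [h1, natDegree_C] at hodd
      exact absurd hodd (by decide)
  have hc : c ≠ 0 := by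
    rintro rfl
    rw [C_0, zero_mul] at e
    exact hfh e
  obtain ⟨c', g', h'⟩ := sq_of_splits_zero (inv_ne_zero hc) hf0
    (splits_of_comp (d := 0) hodd (inv_ne_zero hc) hf0
      ⟨g, 0, 1, one_ne_zero, by
        rw [e, ← mul_assoc, ← C_mul, inv_mul_cancel₀ hc]
        simp⟩)
  exact hf c' g' h'

end sq

section ext

variable {F E : Type} [Field F] [Fintype F] [Field E] [Fintype E] [Algebra F E]

/-- points at which two polynomials are not squares: upper bound -/
theorem card_nonsq_le [DecidableEq E] (hF : ringChar F ≠ 2) {f g : F[X]}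
    (hf : ∀ (c : F) (h : F[X]), f ≠ C c * h ^ 2) (hg : ∀ (c : F) (h : F[X]), g ≠ C c * h ^ 2)
    (hfg : ∀ (c : F) (h : F[X]), f * g ≠ C c * h ^ 2) :
    4 * ((univ.filter fun x : E => quadraticChar E (aeval x f) = -1 ∧
      quadraticChar E (aeval x g) = -1).card : ℝ) ≤
      (Fintype.card E : ℝ) + 10 * (f.natDegree + g.natDegree : ℕ) * Real.sqrt (Fintype.card E) := by
  have hf0 : f ≠ 0 := by
    rintro rfl
    exact hf 0 0 (by simp)
  have hg0 : g ≠ 0 := by
    rintro rfl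
    exact hg 0 0 (by simp)
  have b1 := sum_bound (E := E) hF hf
  have b2 := sum_bound (E := E) hF hg
  have b3 := sum_bound (E := E) hF hfg
  rw [natDegree_mul hf0 hg0] at b3
  have hpt : ∀ x : E, 4 * (if quadraticChar E (aeval x f) = -1 ∧ quadraticChar E (aeval x g) = -1
      then (1 : ℝ) else 0) ≤
      (1 : ℝ) - (quadraticChar E (aeval x f) : ℝ) - (quadraticChar E (aeval x g) : ℝ)
      + (quadraticChar E (aeval x (f * g)) : ℝ) := by
    intro x
    rw [map_mul, map_mul]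
    by_cases h1 : aeval x f = 0
    · by_cases h2 : aeval x g = 0
      · simp [h1, h2]
      · rcases quadraticChar_dichotomy h2 with h | h <;> simp [h1, h2, h]
    · by_cases h2 : aeval x g = 0
      · rcases quadraticChar_dichotomy h1 with h | h <;> simp [h1, h2, h]
      · rcases quadraticChar_dichotomy h1 with h | h <;>
        rcases quadraticChar_dichotomy h2 with h' | h' <;> simp [h1, h2, h, h'] <;> norm_num
  have hs := Finset.sum_le_sum (s := (univ : Finset E)) fun x _ => hpt x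
  rw [sum_add_distrib, sum_sub_distrib, sum_sub_distrib, ← mul_sum, sum_boole] at hs
  rw [sum_const, card_univ, nsmul_eq_mul, mul_one] at hs
  have c1 := abs_le.1 b1
  have c2 := abs_le.1 b2
  have c3 := abs_le.1 b3
  push_cast at c3 hs ⊢
  nlinarith [c1.1, c1.2, c2.1, c2.2, c3.1, c3.2]

/-- points of a set which are `ℓ`-th powers -/
theorem card_powers [DecidableEq E] {ℓ : ℕ} (hℓ : ℓ.Prime) (hℓk : ℓ ∣ Fintype.card F - 1)
    (A B : Finset E) (hB : ∀ y : E, y ^ ℓ ∈ A → y ∈ B) :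
    ℓ * (A.filter fun x => ∃ y : E, y ^ ℓ = x).card ≤ B.card + ℓ := by
  classical
  -- a root of unity
  haveI : Fact ℓ.Prime := ⟨hℓ⟩
  obtain ⟨ζ, hζ⟩ := exists_prime_orderOf_dvd_card (G := Fˣ) ℓ (by
    rw [Fintype.card_units]
    exact hℓk)
  let z : E := algebraMap F E (ζ : F)
  have hz : ∀ i j : ℕ, i < ℓ → j < ℓ → z ^ i = z ^ j → i = j := by
    intro i j hi hj h
    have h1 : ((ζ ^ i : Fˣ) : F) = ((ζ ^ j : Fˣ) : F) := by
      apply (algebraMap F E).injective
      rw [Units.val_pow_eq_pow_val, Units.val_pow_eq_pow_val, map_pow, map_pow]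
      exact h
    have h2 : ζ ^ i = ζ ^ j := Units.ext h1
    exact pow_injOn_Iio_orderOf (by rw [hζ]; exact hi) (by rw [hζ]; exact hj) h2
  have hz1 : z ^ ℓ = 1 := by
    have h1 : ζ ^ ℓ = 1 := by rw [← hζ]; exact pow_orderOf_eq_one ζ
    have h2 : ((ζ ^ ℓ : Fˣ) : F) = 1 := by rw [h1]; rfl
    show (algebraMap F E (ζ : F)) ^ ℓ = 1
    rw [← map_pow, ← Units.val_pow_eq_pow_val, h2, map_one]
  set P := A.filter fun x => ∃ y : E, y ^ ℓ = x with hP
  have h1 : (P.erase 0).card * ℓ ≤ B.card := by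
    have h2 : ∀ x ∈ P.erase 0, ℓ ≤ (B.filter fun y => y ^ ℓ = x).card := by
      intro x hx
      rw [mem_erase, hP, mem_filter] at hx
      obtain ⟨hx0, hxA, y, hy⟩ := hx
      have hy0 : y ≠ 0 := by
        rintro rfl
        rw [zero_pow hℓ.ne_zero] at hy
        exact hx0 hy.symm
      have h3 : (Finset.range ℓ).image (fun i => y * z ^ i) ⊆ B.filter fun y => y ^ ℓ = x := by
        intro w hw
        obtain ⟨i, -, rfl⟩ := mem_image.1 hw
        have h4 : (y * z ^ i) ^ ℓ = x := by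
          rw [mul_pow, ← pow_mul, mul_comm i, pow_mul, hz1, one_pow, mul_one, hy]
        rw [mem_filter]
        exact ⟨hB _ (by rw [h4]; exact hxA), h4⟩
      have h5 : ((Finset.range ℓ).image (fun i => y * z ^ i)).card = ℓ := by
        rw [card_image_of_injOn, card_range]
        intro i hi j hj h
        exact hz i j (mem_range.1 hi) (mem_range.1 hj) (mul_left_cancel₀ hy0 h)
      calc ℓ = _ := h5.symm
        _ ≤ _ := card_le_card h3
    have h6 : (P.erase 0).card * ℓ ≤ ∑ x ∈ P.erase 0, (B.filter fun y => y ^ ℓ = x).card := by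
      have := Finset.card_nsmul_le_sum (P.erase 0) (fun x => (B.filter fun y => y ^ ℓ = x).card) ℓ h2
      simpa using this
    refine h6.trans ?_
    rw [← card_biUnion]
    · refine card_le_card ?_
      intro y hy
      obtain ⟨x, -, hx⟩ := mem_biUnion.1 hy
      exact (mem_filter.1 hx).1
    · intro x _ x' _ hne
      rw [Function.onFun, disjoint_left]
      intro y hy hy'
      exact hne ((mem_filter.1 hy).2.symm.trans (mem_filter.1 hy').2)
  have h2 : P.card ≤ (P.erase 0).card + 1 := by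
    have := pred_card_le_card_erase (s := P) (a := (0 : E))
    omega
  calc ℓ * P.card ≤ ℓ * ((P.erase 0).card + 1) := Nat.mul_le_mul_left _ h2
    _ = (P.erase 0).card * ℓ + ℓ := by ring
    _ ≤ B.card + ℓ := by omega

/-- the minimal polynomials of the points of a set -/
theorem to_polys [DecidableEq E] (S : Finset E) {n : ℕ} (hn : n ≠ 0)
    (hfr : Module.finrank F E = n) :
    ∃ T : Finset F[X], (∀ D ∈ T, ∃ x ∈ S, D = minpoly F x ∧ (minpoly F x).natDegree = n) ∧
      S.card ≤ n * T.card + Fintype.card F ^ (n / 2 + 1) := by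
  classical
  set Bd : Finset E := Finset.univ.filter fun x : E =>
    (minpoly F x).natDegree ≠ Module.finrank F E with hBd
  have h2 : Bd.card ≤ Fintype.card F ^ (Module.finrank F E / 2 + 1) := card_small (F := F) (E := E)
  rw [hfr] at h2
  have hx : ∀ x ∈ S \ Bd, x ∈ S ∧ (minpoly F x).natDegree = n := by
    intro x hx
    rw [Finset.mem_sdiff, hBd, Finset.mem_filter] at hx
    refine ⟨hx.1, ?_⟩
    by_contra hne
    exact hx.2 ⟨Finset.mem_univ _, by rw [hfr]; exact hne⟩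
  refine ⟨(S \ Bd).image fun x => minpoly F x, ?_, ?_⟩
  · intro D hD
    obtain ⟨x, hxS, rfl⟩ := Finset.mem_image.1 hD
    exact ⟨x, (hx x hxS).1, rfl, (hx x hxS).2⟩
  · have h6 : (S \ Bd).card ≤ n * ((S \ Bd).image fun x => minpoly F x).card := by
      refine Finset.card_le_mul_card_image (S \ Bd) n ?_
      intro D hD
      obtain ⟨x, hxS, rfl⟩ := Finset.mem_image.1 hD
      have hdeg := (hx x hxS).2
      haveI : FiniteDimensional F E := Module.Finite.of_finite
      have hne : minpoly F x ≠ 0 := minpoly.ne_zero (Algebra.IsIntegral.isIntegral x)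
      have hsub : ((S \ Bd).filter fun y => minpoly F y = minpoly F x) ⊆
          ((minpoly F x).aroots E).toFinset := by
        intro y hy
        rw [Finset.mem_filter] at hy
        rw [Multiset.mem_toFinset, mem_aroots]
        refine ⟨hne, ?_⟩
        rw [← hy.2]
        exact minpoly.aeval _ _
      refine (Finset.card_le_card hsub).trans ((Multiset.toFinset_card_le _).trans ?_)
      rw [aroots]
      refine (card_roots' _).trans ?_
      rw [natDegree_map, hdeg]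
    have h8 : S.card ≤ (S \ Bd).card + Bd.card := by
      have := Finset.le_card_sdiff Bd S
      omega
    omega

end ext

section count

variable {k : Type} [Field k] [Fintype k]

/-- irreducible polynomials modulo which `f` and `g` are not squares and `t` is not an `ℓ`-th
power -/
theorem exists_manyP (hk : ringChar k ≠ 2) {ℓ : ℕ} (hℓ : ℓ.Prime) (hℓ2 : ℓ ≠ 2)
    (hℓk : ℓ ∣ Fintype.card k - 1) {f g : k[X]}
    (hf : ∀ (c : k) (h : k[X]), f ≠ C c * h ^ 2) (hg : ∀ (c : k) (h : k[X]), g ≠ C c * h ^ 2)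
    (hfg : ∀ (c : k) (h : k[X]), f * g ≠ C c * h ^ 2) (n : ℕ) (hn : n ≠ 0) :
    ∃ T : Finset k[X], (∀ D ∈ T, D.Monic ∧ Irreducible D ∧ D.natDegree = n ∧
      (∀ r : k[X], ¬ D ∣ f - r ^ 2 ∧ ¬ D ∣ g - r ^ 2) ∧ NoPowerRoot D ℓ) ∧
      (1 - 1 / (ℓ : ℝ)) * (Fintype.card k : ℝ) ^ n ≤ 4 * (n * T.card) +
        (22 * (f.natDegree + g.natDegree : ℕ) + 4 * Fintype.card k + 4) *
          (Real.sqrt (Fintype.card k)) ^ n := by
  classical
  obtain ⟨p, hp⟩ := CharP.exists k
  haveI : Fact (Nat.Prime p) := ⟨CharP.char_is_prime k p⟩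
  haveI : NeZero n := ⟨hn⟩
  let E := FiniteField.Extension k p n
  letI : Fintype E := Fintype.ofFinite E
  haveI : FiniteDimensional k E := Module.Finite.of_finite
  have hfr : Module.finrank k E = n := FiniteField.finrank_extension k p n
  have hcard : Fintype.card E = Fintype.card k ^ n := by
    rw [Module.card_eq_pow_finrank (K := k) (V := E), hfr]
  have hodd : Odd (X ^ ℓ : k[X]).natDegree := by
    rw [natDegree_X_pow]
    exact hℓ.odd_of_ne_two hℓ2
  set A : Finset E := Finset.univ.filter fun x : E => quadraticChar E (aeval x f) = -1 ∧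
      quadraticChar E (aeval x g) = -1 with hA
  set B : Finset E := Finset.univ.filter fun x : E =>
      quadraticChar E (aeval x (f.comp (X ^ ℓ))) = -1 ∧
      quadraticChar E (aeval x (g.comp (X ^ ℓ))) = -1 with hB
  have h1 := card_nonsq (E := E) hk hf hg hfg
  have h2 := card_nonsq_le (E := E) hk (comp_ne_sq hodd hf) (comp_ne_sq hodd hg) (by
    intro c h
    rw [← mul_comp]
    exact comp_ne_sq hodd hfg c h)
  rw [← hA] at h1
  rw [← hB] at h2
  have h3 := card_powers (F := k) hℓ hℓk A B (by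
    intro y hy
    rw [hA, mem_filter] at hy
    rw [hB, mem_filter]
    refine ⟨mem_univ _, ?_⟩
    rw [aeval_comp, aeval_comp, map_pow, aeval_X]
    exact hy.2)
  set P := A.filter fun x => ∃ y : E, y ^ ℓ = x with hP
  obtain ⟨T, hT, hc⟩ := to_polys (F := k) (A \ P) hn hfr
  have hsq : Real.sqrt (Fintype.card E) = (Real.sqrt (Fintype.card k)) ^ n := by
    rw [hcard]
    push_cast
    rw [Real.sqrt_eq_iff_mul_self_eq (by positivity) (by positivity), ← mul_pow,
      Real.mul_self_sqrt (by positivity)]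
  have hq1 : (1 : ℝ) ≤ Fintype.card k := by exact_mod_cast Fintype.card_pos
  have hsq1 : 1 ≤ Real.sqrt (Fintype.card k) := by
    rw [show (1 : ℝ) = Real.sqrt 1 by simp]
    exact Real.sqrt_le_sqrt hq1
  have h4 : ((Fintype.card k ^ (n / 2 + 1) : ℕ) : ℝ) ≤
      Fintype.card k * (Real.sqrt (Fintype.card k)) ^ n := by
    push_cast
    rw [pow_succ, mul_comm]
    refine mul_le_mul_of_nonneg_left ?_ (by positivity)
    have h5 : (Fintype.card k : ℝ) ^ (n / 2) = (Real.sqrt (Fintype.card k)) ^ (2 * (n / 2)) := by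
      rw [pow_mul, Real.sq_sqrt (by positivity)]
    rw [h5]
    exact pow_le_pow_right₀ hsq1 (Nat.mul_div_le n 2)
  refine ⟨T, ?_, ?_⟩
  · intro D hD
    obtain ⟨x, hx, rfl, hdeg⟩ := hT D hD
    have hint : IsIntegral k x := Algebra.IsIntegral.isIntegral x
    rw [mem_sdiff, hP, hA, mem_filter, mem_filter, mem_filter] at hx
    obtain ⟨⟨-, e1, e2⟩, e3⟩ := hx
    have key : ∀ (w r : k[X]), quadraticChar E (aeval x w) = -1 → ¬ minpoly k x ∣ w - r ^ 2 := by
      intro w r hw hdv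
      have h5 : aeval x (w - r ^ 2) = 0 := (minpoly.dvd_iff).1 hdv
      rw [map_sub, map_pow, sub_eq_zero] at h5
      rw [h5] at hw
      by_cases h0 : aeval x r = 0
      · rw [h0, zero_pow two_ne_zero, MulChar.map_zero] at hw
        norm_num at hw
      · rw [quadraticChar_sq_one' h0] at hw
        norm_num at hw
    refine ⟨minpoly.monic hint, minpoly.irreducible hint, hdeg,
      fun r => ⟨key f r e1, key g r e2⟩, ?_⟩
    intro π hπ hdv y hy
    apply e3
    refine ⟨⟨mem_univ _, e1, e2⟩, ?_⟩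
    have has : Associated π (minpoly k x) := hπ.associated_of_dvd (minpoly.irreducible hint) hdv
    have h0 : aeval x π = 0 := (minpoly.dvd_iff).1 has.symm.dvd
    refine ⟨AdjoinRoot.lift (algebraMap k E) x h0 y, ?_⟩
    rw [← map_pow, hy]
    exact AdjoinRoot.lift_root h0
  · have hℓ0 : (0 : ℝ) < ℓ := by exact_mod_cast hℓ.pos
    have hℓ1 : (1 : ℝ) ≤ ℓ := by exact_mod_cast hℓ.one_lt.le
    have h5 : (A \ P).card + P.card = A.card := by
      have := card_sdiff_add_card_eq_card (filter_subset (fun x => ∃ y : E, y ^ ℓ = x) A)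
      exact this
    have h6 : ((A \ P).card : ℝ) + P.card = A.card := by exact_mod_cast h5
    have h7 : (ℓ : ℝ) * P.card ≤ B.card + ℓ := by exact_mod_cast h3
    have h8 : (P.card : ℝ) ≤ B.card / ℓ + 1 := by
      have : (P.card : ℝ) * ℓ ≤ (B.card / ℓ + 1) * ℓ := by
        rw [add_mul, div_mul_cancel₀ _ hℓ0.ne', one_mul]
        linarith
      exact le_of_mul_le_mul_right this hℓ0
    have h9 : ((A \ P).card : ℝ) ≤ n * T.card + Fintype.card k * (Real.sqrt (Fintype.card k)) ^ n := by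
      have h10 : ((A \ P).card : ℝ) ≤ n * T.card + ((Fintype.card k ^ (n / 2 + 1) : ℕ) : ℝ) := by
        exact_mod_cast hc
      linarith
    rw [natDegree_comp, natDegree_comp, natDegree_X_pow] at h2
    rw [hsq, hcard] at h1 h2
    set Q : ℝ := (Real.sqrt (Fintype.card k)) ^ n with hQ
    have hQ1 : 1 ≤ Q := one_le_pow₀ hsq1
    -- the bound for `B`
    have h11 : 4 * ((B.card : ℝ) / ℓ) ≤ (Fintype.card k : ℝ) ^ n / ℓ +
        10 * (f.natDegree + g.natDegree : ℕ) * Q := by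
      have e : (Fintype.card k : ℝ) ^ n / ℓ + 10 * (f.natDegree + g.natDegree : ℕ) * Q =
          ((Fintype.card k : ℝ) ^ n + 10 * ((f.natDegree * ℓ + g.natDegree * ℓ : ℕ) : ℝ) * Q) / ℓ := by
        push_cast
        field_simp
      rw [e, ← mul_div_assoc]
      apply div_le_div_of_nonneg_right _ hℓ0.le
      exact_mod_cast h2
    push_cast at h1 h11 ⊢
    have e2 : (1 - 1 / (ℓ : ℝ)) * (Fintype.card k : ℝ) ^ n = (Fintype.card k : ℝ) ^ n -
        (Fintype.card k : ℝ) ^ n / ℓ := by ring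
    rw [e2]
    nlinarith

/-- the asymptotic form -/
theorem exists_quarterP (hk : ringChar k ≠ 2) {ℓ : ℕ} (hℓ : ℓ.Prime) (hℓ2 : ℓ ≠ 2)
    (hℓk : ℓ ∣ Fintype.card k - 1) {f g : k[X]}
    (hf : ∀ (c : k) (h : k[X]), f ≠ C c * h ^ 2) (hg : ∀ (c : k) (h : k[X]), g ≠ C c * h ^ 2)
    (hfg : ∀ (c : k) (h : k[X]), f * g ≠ C c * h ^ 2) {η : ℝ} (hη : 0 < η) :
    ∃ n0 : ℕ, ∀ n : ℕ, n0 ≤ n → ∃ T : Finset k[X], (∀ D ∈ T, D.Monic ∧ Irreducible D ∧
      D.natDegree = n ∧ (∀ r : k[X], ¬ D ∣ f - r ^ 2 ∧ ¬ D ∣ g - r ^ 2) ∧ NoPowerRoot D ℓ) ∧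
      (1 / 4 * (1 - 1 / (ℓ : ℝ)) - η) * (Fintype.card k : ℝ) ^ n ≤ n * T.card := by
  set A : ℝ := (22 * (f.natDegree + g.natDegree : ℕ) + 4 * Fintype.card k + 4) / (4 * η) with hA
  obtain ⟨N, hN⟩ := exists_nat_ge A
  refine ⟨max 4 N, fun n hn => ?_⟩
  have hn4 : 4 ≤ n := (le_max_left _ _).trans hn
  have hnN : N ≤ n := (le_max_right _ _).trans hn
  obtain ⟨T, hT, hc⟩ := exists_manyP hk hℓ hℓ2 hℓk hf hg hfg n (by omega)
  refine ⟨T, hT, ?_⟩
  set Q : ℝ := (Real.sqrt (Fintype.card k)) ^ n with hQ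
  have hq2 : (2 : ℝ) ≤ Fintype.card k := by exact_mod_cast Fintype.one_lt_card
  have hQQ : (Fintype.card k : ℝ) ^ n = Q * Q := by
    rw [hQ, ← mul_pow, Real.mul_self_sqrt (by positivity)]
  have hQ0 : 0 ≤ Q := by positivity
  have hQn : (n : ℝ) ≤ Q := by
    have h1 : (n : ℝ) * n ≤ Q * Q := by
      rw [← hQQ]
      have h2 : n ^ 2 ≤ 2 ^ n := sq_le_pow n hn4
      have h3 : (n : ℝ) ^ 2 ≤ 2 ^ n := by exact_mod_cast h2
      calc (n : ℝ) * n = n ^ 2 := by ring
        _ ≤ 2 ^ n := h3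
        _ ≤ (Fintype.card k : ℝ) ^ n := pow_le_pow_left₀ (by norm_num) hq2 n
    nlinarith
  have hAQ : (22 * (f.natDegree + g.natDegree : ℕ) + 4 * (Fintype.card k : ℝ) + 4) ≤
      4 * η * Q := by
    have h1 : A ≤ Q := hN.trans ((by exact_mod_cast hnN : (N : ℝ) ≤ n).trans hQn)
    rw [hA, div_le_iff₀ (by positivity)] at h1
    linarith
  have h5 : (22 * (f.natDegree + g.natDegree : ℕ) + 4 * (Fintype.card k : ℝ) + 4) * Q ≤
      4 * η * Q * Q := mul_le_mul_of_nonneg_right hAQ hQ0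
  rw [hQQ] at hc ⊢
  nlinarith

end count

section main

variable {k k' K F : Type} [Field k] [Field k'] [Algebra k k'] [Field K] [Algebra k[X] K]
    [Field F] [Algebra k'[X] F] [IsFractionRing k'[X] F] [Algebra K F]

/-- **Twists by primes in towers of covers.** -/
theorem kummer_prime_twists [Fintype k] (hT : IsTower k k' K F) (hk : ringChar k ≠ 2) {a b : k[X]}
    (hNb : NotNorm b) (hNd : NotNorm (a ^ 2 - 4 * b))
    (hbd : ∀ (c : k) (g : k[X]), b * (a ^ 2 - 4 * b) ≠ C c * g ^ 2)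
    (hO : OnlyTrivial a b) (hO' : OnlyTrivial (-2 * a) (a ^ 2 - 4 * b))
    {ℓ : ℕ} (hℓ : ℓ.Prime) (hℓ2 : ℓ ≠ 2) (hℓk : ℓ ∣ Fintype.card k - 1)
    (hp : NoPowerRoot (b * (a ^ 2 - 4 * b)) ℓ) {η : ℝ} (hη : 0 < η) :
    ∃ n0 : ℕ, ∀ n : ℕ, n0 ≤ n → ∃ T : Finset k[X],
      (∀ D ∈ T, D.Monic ∧ Irreducible D ∧ D.natDegree = n ∧
        ∀ (c : k) (j : ℕ), c ≠ 0 →
          TateAtTwo (F := F) k' (crvT (algebraMap k[X] K ((C c * (a * D)).comp (X ^ (ℓ ^ j))))
            (algebraMap k[X] K ((C (c ^ 2) * (b * D ^ 2)).comp (X ^ (ℓ ^ j)))))) ∧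
      (1 / 4 * (1 - 1 / (ℓ : ℝ)) - η) * (Fintype.card k : ℝ) ^ n ≤ n * T.card := by
  have h2 : (2 : k) ≠ 0 := Ring.two_ne_zero hk
  obtain ⟨n0, hn⟩ := exists_quarterP hk hℓ hℓ2 hℓk (FF.ne_sq_of_notNorm hNb)
    (FF.ne_sq_of_notNorm hNd) hbd hη
  refine ⟨n0, fun n hnn => ?_⟩
  obtain ⟨T, hT', hc⟩ := hn n hnn
  refine ⟨T, fun D hD => ?_, hc⟩
  obtain ⟨h3, h4, h5, h6, h7⟩ := hT' D hD
  refine ⟨h3, h4, h5, ?_⟩
  intro c j hc
  refine kummer hT h2 hNb hNd hO hO' ⟨h4.ne_zero, ?_⟩ hc ((hℓ.odd_of_ne_two hℓ2).pow) ?_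
  · intro π hπ hdv r
    have has : Associated π D := (hπ.associated_of_dvd h4 hdv)
    refine ⟨fun h8 => (h6 r).1 (has.symm.dvd.trans h8), fun h8 => (h6 r).2 (has.symm.dvd.trans h8)⟩
  · intro ℓ' hℓ' hdv
    have e : ℓ' = ℓ := (Nat.prime_dvd_prime_iff_eq hℓ' hℓ).1 (hℓ'.dvd_of_dvd_pow hdv)
    subst e
    intro π hπ hdv'
    rcases hπ.prime.dvd_or_dvd hdv' with h8 | h8
    · exact hp π hπ h8
    · exact h7 π hπ h8

end main

end Pool.Agent.R939.KM
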