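import Pool.Agent.R939.KM.Km

/-!
# Covers `t ↦ tᵐ`: number fields
-/

set_option autoImplicit false
set_option linter.all false

namespace Pool.Agent.R939.KM

open Polynomial Pool.Agent.R939.EI Pool.Agent.TH115.GD

section pow

/-- An element of a number field which is not a root of unity is an `ℓ`-th power only for finitely
many `ℓ`. -/
theorem finite_pow {L : Type} [Field L] [NumberField L] {β : L} (hβ : β ≠ 0)
    (h1 : ∀ n : ℕ, 0 < n → β ^ n ≠ 1) : {ℓ : ℕ | 0 < ℓ ∧ ∃ y : L, y ^ ℓ = β}.Finite := by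
  classical
  obtain ⟨d, hd0, hd⟩ : ∃ d : ℤ, d ≠ 0 ∧ IsIntegral ℤ (d • β) := by
    have h2 : IsAlgebraic ℤ β := (IsFractionRing.isAlgebraic_iff ℤ ℚ L).2
      (Algebra.IsAlgebraic.isAlgebraic β)
    obtain ⟨y, hy, h3⟩ := h2.exists_integral_multiple
    exact ⟨y, hy, h3⟩
  set B : ℝ := ‖(d : ℂ)‖ * (1 + ∑ φ : L →+* ℂ, ‖φ β‖) with hB
  have hS := NumberField.Embeddings.finite_of_norm_le L ℂ B
  have hdL : (d : L) ≠ 0 := by exact_mod_cast hd0
  have hS' : {y : L | (d : L) * y ∈ {x : L | IsIntegral ℤ x ∧ ∀ φ : L →+* ℂ, ‖φ x‖ ≤ B}}.Finite :=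
    hS.preimage ((mul_right_injective₀ hdL).injOn)
  have key : ∀ ℓ : ℕ, 0 < ℓ → ∀ y : L, y ^ ℓ = β →
      y ∈ {y : L | (d : L) * y ∈ {x : L | IsIntegral ℤ x ∧ ∀ φ : L →+* ℂ, ‖φ x‖ ≤ B}} := by
    intro ℓ hℓ y hy
    refine ⟨?_, ?_⟩
    · have h3 : IsIntegral ℤ (((d : L) * y) ^ ℓ) := by
        have e : ((d : L) * y) ^ ℓ = (d : L) ^ (ℓ - 1) * (d • β) := by
          rw [mul_pow, hy, zsmul_eq_mul, ← mul_assoc, ← pow_succ]
          congr 2
          omega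
        rw [e]
        have h4 : IsIntegral ℤ (d : L) := by
          have : (d : L) = algebraMap ℤ L d := by simp
          rw [this]
          exact isIntegral_algebraMap
        exact (h4.pow _).mul hd
      exact h3.of_pow hℓ
    · intro φ
      rw [map_mul, norm_mul, hB]
      have h3 : φ (d : L) = (d : ℂ) := by simp
      rw [h3]
      refine mul_le_mul_of_nonneg_left ?_ (norm_nonneg _)
      have h4 : ‖φ y‖ ^ ℓ = ‖φ β‖ := by
        rw [← norm_pow, ← map_pow, hy]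
      have h5 : ‖φ β‖ ≤ ∑ φ : L →+* ℂ, ‖φ β‖ :=
        Finset.single_le_sum (f := fun φ : L →+* ℂ => ‖φ β‖) (fun _ _ => norm_nonneg _)
          (Finset.mem_univ φ)
      rcases le_total ‖φ y‖ 1 with h6 | h6
      · have h7 : 0 ≤ ∑ φ : L →+* ℂ, ‖φ β‖ := Finset.sum_nonneg fun _ _ => norm_nonneg _
        linarith
      · have h7 : ‖φ y‖ ≤ ‖φ y‖ ^ ℓ := le_self_pow₀ h6 hℓ.ne'
        linarith
  by_contra hinf
  have hinf' : {ℓ : ℕ | 0 < ℓ ∧ ∃ y : L, y ^ ℓ = β}.Infinite := hinf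
  choose! y hy using fun ℓ : ℕ => fun h : 0 < ℓ ∧ ∃ y : L, y ^ ℓ = β => h.2
  obtain ⟨ℓ, hℓ, ℓ', hℓ', hne, heq⟩ := hinf'.exists_ne_map_eq_of_mapsTo
    (f := y) (fun ℓ (h : 0 < ℓ ∧ ∃ y : L, y ^ ℓ = β) => key ℓ h.1 _ (hy ℓ h)) hS'
  have h2 : ∀ ℓ ℓ' : ℕ, 0 < ℓ → ℓ < ℓ' → ∀ z : L, z ^ ℓ = β → z ^ ℓ' = β → False := by
    intro ℓ ℓ' h0 hlt z hz hz'
    have hz0 : z ≠ 0 := by
      rintro rfl
      rw [zero_pow h0.ne'] at hz
      exact hβ hz.symm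
    have h3 : z ^ (ℓ' - ℓ) = 1 := by
      apply mul_left_cancel₀ (pow_ne_zero ℓ hz0)
      rw [← pow_add, mul_one, hz, Nat.add_sub_cancel' hlt.le, hz']
    apply h1 (ℓ' - ℓ) (by omega)
    rw [← hz, ← pow_mul, mul_comm, pow_mul, h3, one_pow]
  have e1 := hy ℓ hℓ
  have e2 := hy ℓ' hℓ'
  rw [← heq] at e2
  rcases lt_or_gt_of_ne hne with h | h
  · exact h2 ℓ ℓ' hℓ.1 h _ e1 e2
  · exact h2 ℓ' ℓ hℓ'.1 h _ e2 e1

end pow

section nf

variable {k : Type} [Field k] [NumberField k]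

theorem no_power_one {π : k[X]} (hπ : Irreducible π)
    (h : ∀ n : ℕ, 0 < n → ¬ π ∣ X * (X ^ n - 1)) :
    ∃ N : ℕ, N ≠ 0 ∧ ∀ ℓ : ℕ, ℓ.Prime → ¬ ℓ ∣ N → ∀ y : AdjoinRoot π, y ^ ℓ ≠ AdjoinRoot.root π := by
  classical
  haveI : Fact (Irreducible π) := ⟨hπ⟩
  haveI : FiniteDimensional k (AdjoinRoot π) := (AdjoinRoot.powerBasis hπ.ne_zero).finite
  haveI : CharZero (AdjoinRoot π) :=
    charZero_of_injective_algebraMap (algebraMap k (AdjoinRoot π)).injective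
  haveI : IsScalarTower ℚ k (AdjoinRoot π) := IsScalarTower.of_algebraMap_eq fun q => by simp
  haveI : FiniteDimensional ℚ (AdjoinRoot π) := FiniteDimensional.trans ℚ k (AdjoinRoot π)
  haveI : NumberField (AdjoinRoot π) :=
    { to_charZero := inferInstance, to_finiteDimensional := inferInstance }
  have hr0 : AdjoinRoot.root π ≠ 0 := by
    intro h0
    apply h 1 one_pos
    have h1 : AdjoinRoot.mk π X = 0 := by rw [AdjoinRoot.mk_X, h0]
    exact (AdjoinRoot.mk_eq_zero.1 h1).mul_right _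
  have hr1 : ∀ n : ℕ, 0 < n → AdjoinRoot.root π ^ n ≠ 1 := by
    intro n hn h0
    apply h n hn
    have h1 : AdjoinRoot.mk π (X ^ n - 1) = 0 := by
      rw [map_sub, map_pow, AdjoinRoot.mk_X, h0, map_one, sub_self]
    exact (AdjoinRoot.mk_eq_zero.1 h1).mul_left _
  have hfin := finite_pow hr0 hr1
  refine ⟨∏ ℓ ∈ hfin.toFinset, ℓ, ?_, ?_⟩
  · rw [Finset.prod_ne_zero_iff]
    intro ℓ hℓ
    rw [Set.Finite.mem_toFinset] at hℓ
    exact hℓ.1.ne'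
  · intro ℓ hℓ hN y hy
    apply hN
    exact Finset.dvd_prod_of_mem (fun ℓ => ℓ)
      ((Set.Finite.mem_toFinset hfin).2 ⟨hℓ.pos, y, hy⟩)

theorem no_power_assoc {π π' : k[X]} (h : π' ∣ π) {ℓ : ℕ}
    (h1 : ∀ y : AdjoinRoot π', y ^ ℓ ≠ AdjoinRoot.root π') (y : AdjoinRoot π) :
    y ^ ℓ ≠ AdjoinRoot.root π := by
  intro hy
  let φ : AdjoinRoot π →+* AdjoinRoot π' :=
    AdjoinRoot.lift (AdjoinRoot.of π') (AdjoinRoot.root π') (by
      obtain ⟨g, hg⟩ := h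
      rw [hg, eval₂_mul, AdjoinRoot.eval₂_root, zero_mul])
  have h2 : φ (AdjoinRoot.root π) = AdjoinRoot.root π' := AdjoinRoot.lift_root _
  apply h1 (φ y)
  rw [← map_pow, hy, h2]

theorem no_power_all {f : k[X]} (hf : f ≠ 0) (h : ∀ n : ℕ, 0 < n → IsCoprime f (X * (X ^ n - 1))) :
    ∃ N : ℕ, N ≠ 0 ∧ ∀ ℓ : ℕ, ℓ.Prime → ¬ ℓ ∣ N → NoPowerRoot f ℓ := by
  classical
  set S := (UniqueFactorizationMonoid.normalizedFactors f).toFinset with hS
  have hmem : ∀ π ∈ S, Irreducible π ∧ π ∣ f := by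
    intro π hπ
    rw [hS, Multiset.mem_toFinset] at hπ
    exact ⟨UniqueFactorizationMonoid.irreducible_of_normalized_factor π hπ,
      UniqueFactorizationMonoid.dvd_of_mem_normalizedFactors hπ⟩
  have hN : ∀ π ∈ S, ∃ N : ℕ, N ≠ 0 ∧ ∀ ℓ : ℕ, ℓ.Prime → ¬ ℓ ∣ N →
      ∀ y : AdjoinRoot π, y ^ ℓ ≠ AdjoinRoot.root π := by
    intro π hπ
    obtain ⟨h1, h2⟩ := hmem π hπ
    refine no_power_one h1 ?_
    intro n hn h3
    exact h1.not_isUnit ((h n hn).isUnit_of_dvd' h2 h3)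
  choose! N hN0 hN1 using hN
  refine ⟨∏ π ∈ S, N π, Finset.prod_ne_zero_iff.2 hN0, ?_⟩
  intro ℓ hℓ hd π hπ hdv
  obtain ⟨π', hπ', has⟩ := UniqueFactorizationMonoid.exists_mem_normalizedFactors_of_dvd hf hπ hdv
  have hmS : π' ∈ S := by
    rw [hS, Multiset.mem_toFinset]
    exact hπ'
  refine no_power_assoc has.symm.dvd (hN1 π' hmS ℓ hℓ ?_)
  intro h5
  exact hd (h5.trans (Finset.dvd_prod_of_mem N hmS))

end nf

section main

variable {k k' K F : Type} [Field k] [Field k'] [Algebra k k'] [Field K] [Algebra k[X] K]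
    [Field F] [Algebra k'[X] F] [IsFractionRing k'[X] F] [Algebra K F]

/-- **All the covers `t ↦ tᵐ` with `m` prime to `N`.** -/
theorem coprime_covers [NumberField k] (hT : IsTower k k' K F) {a b D : k[X]}
    (hNb : NotNorm b) (hNd : NotNorm (a ^ 2 - 4 * b)) (hO : OnlyTrivial a b)
    (hO' : OnlyTrivial (-2 * a) (a ^ 2 - 4 * b)) (hD : InertIn a b D)
    (h0 : ∀ n : ℕ, 0 < n → IsCoprime (b * (a ^ 2 - 4 * b) * D) (X * (X ^ n - 1))) :
    ∃ N : ℕ, N ≠ 0 ∧ ∀ m : ℕ, Nat.Coprime m N → ∀ c : k, c ≠ 0 →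
      TateAtTwo (F := F) k' (crvT (algebraMap k[X] K ((C c * (a * D)).comp (X ^ m)))
        (algebraMap k[X] K ((C (c ^ 2) * (b * D ^ 2)).comp (X ^ m)))) := by
  have hb0 : b ≠ 0 := by
    rintro rfl
    exact (hNb 0 1 0 0 (by simp)).1 rfl
  have hd0 : a ^ 2 - 4 * b ≠ 0 := by
    intro h0
    exact (hNd 0 1 0 0 (by rw [h0]; simp)).1 rfl
  obtain ⟨N, hN, hN'⟩ := no_power_all (mul_ne_zero (mul_ne_zero hb0 hd0) hD.1) h0
  refine ⟨2 * N, mul_ne_zero two_ne_zero hN, ?_⟩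
  intro m hm c hc
  have hm2 : Nat.Coprime m 2 := hm.coprime_mul_right_right
  have hmN : Nat.Coprime m N := hm.coprime_mul_left_right
  refine kummer hT two_ne_zero hNb hNd hO hO' hD hc (Nat.coprime_two_right.1 hm2) ?_
  intro ℓ hℓ hℓm
  refine hN' ℓ hℓ ?_
  intro hℓN
  exact Nat.not_coprime_of_dvd_of_dvd hℓ.one_lt hℓm hℓN hmN

end main

end Pool.Agent.R939.KM
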